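import Pool.Agent.Y249.DG.Disc
import Pool.Agent.Y249.DG.Cor

/-!
# Groenbaek's criterion for noncommutative Banach algebras

For every Banach algebra `A` the enveloping algebra exists, weak amenability of `A` implies that
the diagonal ideal is idempotent, and the diagonal ideal is idempotent exactly when the
commutative Banach algebra `A / J` is weakly amenable, where `J` is the closed two-sided ideal
generated by the commutators; this is also equivalent to the vanishing of all bounded derivations
of `A` into symmetric Banach bimodules.  The criterion becomes true for every Banach algebra after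
adding to the idempotence of the diagonal ideal the condition that the bounded derivations
`A → A*` are inner on `J`.  For the matrix algebras `M_n(B)` with `n ≥ 2` the diagonal ideal is
always idempotent, while `M_n(B)` is weakly amenable exactly when `B` is.
-/

namespace Pool.Agent.Results.MP_ae31bd_an.ForwardHalf

open Pool.Agent.Results.MP_ae31bd_an.Disproof Pool.Agent.Y249.DG

universe u

attribute [local instance] Matrix.linftyOpNormedRing Matrix.linftyOpNormedAlgebra

theorem complete_matrix (B : Type u) [NormedRing B] [CompleteSpace B] (n : ℕ) :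
    @CompleteSpace (Matrix (Fin n) (Fin n) B) (Matrix.linftyOpNormedRing :
      NormedRing (Matrix (Fin n) (Fin n) B)).toMetricSpace.toPseudoMetricSpace.toUniformSpace := by
  have : CompleteSpace (Fin n → Fin n → B) := inferInstance
  exact this

/-- The dual numbers are not weakly amenable. -/
theorem not_wa_dual : ¬ WeaklyAmenable (DualNumber ℂ) := by
  intro h
  obtain ⟨f, -, hf⟩ := h (fun a c => TrivSqZeroExt.snd a * TrivSqZeroExt.fst c)
    ((ContinuousLinearMap.mul ℂ ℂ).bilinearComp (TrivSqZeroExt.sndCLM ℂ ℂ)
      (TrivSqZeroExt.fstCLM ℂ ℂ)).isBoundedBilinearMap (by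
      intro a b c
      simp only [TrivSqZeroExt.snd_mul, TrivSqZeroExt.fst_mul, smul_eq_mul,
        MulOpposite.smul_eq_mul_unop, MulOpposite.unop_op]
      ring)
  have h1 := hf DualNumber.eps 1
  simp at h1

section Statement

/-- A complex Banach algebra (unital or not, commutative or not). -/
structure BAlg : Type (u + 1) where
  A : Type u
  [ring : NonUnitalNormedRing A]
  [space : NormedSpace ℂ A]
  [tower : IsScalarTower ℂ A A]
  [comm : SMulCommClass ℂ A A]
  [complete : CompleteSpace A]

attribute [instance] BAlg.ring BAlg.space BAlg.tower BAlg.comm BAlg.complete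

/-- What is proved for every Banach algebra `A` and its enveloping algebra `M`: weak amenability
implies that `I^Δ` is idempotent; `I^Δ` is idempotent iff all bounded derivations into symmetric
Banach bimodules vanish; `A` is weakly amenable iff `I^Δ` is idempotent and the bounded
derivations `A → A*` are inner on `J`; for the quotient `q : A → C = A / J`, `I^Δ` is idempotent
iff `C` is weakly amenable, and the criterion holds for `A` iff weak amenability of `C` implies
that of `A`. -/
def Law (𝔸 : BAlg.{u}) (M : Env 𝔸.A) : Prop :=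
  (WeaklyAmenable 𝔸.A → M.DiagonalIdempotent) ∧
  (M.DiagonalIdempotent ↔ SymDer 𝔸.A) ∧
  (WeaklyAmenable 𝔸.A ↔ M.DiagonalIdempotent ∧ InnerOnComm 𝔸.A) ∧
  ∀ (ℭ : BAlg.{u}) (q : 𝔸.A →L[ℂ] ℭ.A), IsCommQuot q →
    (M.DiagonalIdempotent ↔ WeaklyAmenable ℭ.A) ∧
    ((WeaklyAmenable 𝔸.A ↔ M.DiagonalIdempotent) ↔
      (WeaklyAmenable ℭ.A → WeaklyAmenable 𝔸.A))

/-- The Banach algebra `A / J` exists. -/
def HasCommQuot (𝔸 : BAlg.{u}) : Prop := ∃ (ℭ : BAlg.{u}) (q : 𝔸.A →L[ℂ] ℭ.A), IsCommQuot q

/-- `I^Δ` is idempotent but the algebra is not weakly amenable. -/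
def Fails (𝔸 : BAlg.{u}) : Prop :=
  (∀ M : Env 𝔸.A, M.DiagonalIdempotent) ∧ ¬ WeaklyAmenable 𝔸.A

/-- The algebra `M_n(B)` with the operator norm for the maximum norm of `B^n`. -/
noncomputable def mat (B : Type u) [NormedRing B] [NormedAlgebra ℂ B] [CompleteSpace B] (n : ℕ) :
    BAlg.{u} where
  A := Matrix (Fin n) (Fin n) B
  complete := complete_matrix B n

/-- `M_n` over the dual numbers. -/
noncomputable def matDual (n : ℕ) : BAlg.{0} := mat (DualNumber ℂ) n

instance : CompleteSpace DA := (Subalgebra.isClosed_topologicalClosure _).completeSpace_coe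

/-- `M_n` over the disc algebra. -/
noncomputable def matDisc (n : ℕ) : BAlg.{0} := mat DA n

/-- The Jacobson radical of `M_n(B)` is zero. -/
def MatSemisimple (B : Type) [Ring B] (n : ℕ) : Prop :=
  (⊥ : Ideal (Matrix (Fin n) (Fin n) B)).jacobson = ⊥

/-- The Jacobson radical of `M_n` over the disc algebra is zero. -/
def DiscSemisimple (n : ℕ) : Prop := MatSemisimple DA n

end Statement

/-- **Full answer to Q1, with the exact range of the criterion.**

* For every Banach algebra `A` the algebra `A^env` exists; if `A` is weakly amenable then `I^Δ` is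
  idempotent; `I^Δ` is idempotent iff every bounded derivation of `A` into a symmetric Banach
  bimodule vanishes, and iff the commutative Banach algebra `A / J` (`J` the closed two-sided
  ideal generated by the commutators) is weakly amenable; and `A` is weakly amenable iff `I^Δ` is
  idempotent and every bounded derivation `A → A*` is inner on `J`.  So the criterion holds for
  `A` iff weak amenability of `A / J` implies weak amenability of `A`.
* For every unital Banach algebra `B` and `n ≥ 2` the diagonal ideal of `M_n(B)` is idempotent,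
  while `M_n(B)` is weakly amenable iff `B` is; so the criterion holds for `M_n(B)` exactly when
  `B` is weakly amenable.
* In particular the criterion fails for every `n ≥ 2` for the finite-dimensional algebra
  `M_n(ℂ[ε]/(ε²))` and for the semisimple algebra `M_n(D)`, `D` the disc algebra. -/
theorem result :
    (∀ 𝔸 : BAlg.{u}, Nonempty (Env 𝔸.A) ∧ HasCommQuot 𝔸 ∧ ∀ M : Env 𝔸.A, Law 𝔸 M) ∧
    (∀ (B : Type u) [NormedRing B] [NormedAlgebra ℂ B] [CompleteSpace B] (n : ℕ), 2 ≤ n →
      (∀ M : Env (mat B n).A, M.DiagonalIdempotent) ∧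
      (WeaklyAmenable (mat B n).A ↔ WeaklyAmenable B)) ∧
    (∀ n : ℕ, 2 ≤ n → FiniteDimensional ℂ (matDual n).A ∧ Fails (matDual n) ∧
      DiscSemisimple n ∧ Fails (matDisc n)) := by
  have hmat : ∀ (B : Type u) [NormedRing B] [NormedAlgebra ℂ B] [CompleteSpace B] (n : ℕ),
      2 ≤ n → (∀ M : Env (mat B n).A, M.DiagonalIdempotent) ∧
      (WeaklyAmenable (mat B n).A ↔ WeaklyAmenable B) := by
    intro B _ _ _ n hn
    have hcom : ComAm (mat B n).A := comAm_matrix (B := B) hn
    refine ⟨fun M => idempotent_of_comAm M hcom, fun h => ?_, fun h => ?_⟩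
    · exact weaklyAmenable_of_matrix (B := B) (n := n) (by omega) h
    · exact weaklyAmenable_matrix (B := B) (n := n) (by omega) h
  have hmat0 : ∀ (B : Type) [NormedRing B] [NormedAlgebra ℂ B] [CompleteSpace B] (n : ℕ),
      2 ≤ n → ¬ WeaklyAmenable B → Fails (mat B n) := by
    intro B _ _ _ n hn hB
    have hcom : ComAm (mat B n).A := comAm_matrix (B := B) hn
    refine ⟨fun M => idempotent_of_comAm M hcom, fun h => hB ?_⟩
    exact weaklyAmenable_of_matrix (B := B) (n := n) (by omega) h
  refine ⟨?_, hmat, ?_⟩
  · intro 𝔸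
    refine ⟨nonempty_env 𝔸.A, ⟨⟨CQ 𝔸.A⟩, qm 𝔸.A, qm_isCommQuot⟩,
      fun M => ⟨idempotent_of_weaklyAmenable M, idempotent_iff_symDer M, ?_, ?_⟩⟩
    · rw [idempotent_iff_comAm M]
      exact weaklyAmenable_iff_comm
    intro ℭ q hq
    have h1 : M.DiagonalIdempotent ↔ WeaklyAmenable ℭ.A :=
      (idempotent_iff_comAm M).trans ⟨wa_of_comAm hq, comAm_of_wa hq⟩
    refine ⟨h1, ?_⟩
    have h2 := idempotent_of_weaklyAmenable M
    tauto
  · intro n hn
    refine ⟨?_, hmat0 (DualNumber ℂ) n hn not_wa_dual, jac_matrix jac_disc,
      hmat0 DA n hn not_wa_disc⟩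
    exact (inferInstance : FiniteDimensional ℂ (Matrix (Fin n) (Fin n) (DualNumber ℂ)))

end Pool.Agent.Results.MP_ae31bd_an.ForwardHalf
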